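import Pool.Agent.Results.MP_87c685_nt.FewDigitTwistedCoefficients
import Pool.Agent.X174.DigitWin

/-!
# Elliptic curves over number fields: partial sums of the coefficients of the twisted L-functions of the odd symmetric powers, for ALL parameters in cubes

**Theorem.** Let `d, n ≥ 1`, `D, A ≥ 0`, `δ > 0`. There is `c > 0` such that the following holds for every family which assigns
to every `x` at most `x ^ A` systems of a number field `F` of degree at most `n`, linear forms `a`, `b` in `d` variables over its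
ring of integers (some variable occurs only in `a`, and some only in `b`, with coefficient `1`), an odd `k` and an `R` with
`R (k + 1) ≤ D`, numbers `u_{v, j}` of absolute value at most `1` for the primes `v` of `F` and `j ≤ R`, and a function `w` on the
integers with `|w (n)| ≤ 1`; every `ξ > 0` with `ξ A ≤ d`, every sequence `v ≥ 1` of exponent of convergence at most `τ` and every
`ρ < 1`: there is a set `E ⊂ ℝ ^ d` of Hausdorff dimension at most `(d - ξ A + τ) / (1 - ρ)` such that for each `x ∈ ℝ ^ d`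
outside `E` there is `i₀` such that for ALL `m ∈ ℕ ^ d` with `|m_l - x_l v_i| ≤ v_i ^ ρ` for some `i ≥ i₀`, all integers `X` with
`v_i ^ ξ ≤ X ≤ v_i ^ c`, all systems belonging to `X`, all `M < M' ≤ X` and all real `t` with `|t| ≤ X ^ A` the sum
`∑ w (n) λ (n) n ^ (- i t)` over the integers `n` with `M < n ≤ M'` is at most `X ^ (1 / 2 + δ)` in absolute value, where the
`λ (n)` are the coefficients of the L-function of the `k`-th symmetric power of `E_m : Y ^ 2 = X ^ 3 + a (m) X + b (m)` over `F`,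
twisted by the Euler product over `F` of degree `R` with the parameters `u_{v, j}`.

The numbers of the exceptional `m` come from the result `FewDigitTwistedCoefficients` on the digits of `m`.
-/

set_option autoImplicit false

open Finset NumberField IsDedekindDomain Module

namespace Pool.Agent.Results.MP_87c685_nt.CurvesInCubes

open FewDigitTwistedCoefficients (partialSum Free exceptions change)

/-- the exponent of convergence of the sequence `v` is at most `τ` -/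
def ExpLe (v : ℕ → ℝ) (τ : ℝ) : Prop := ∀ t : ℝ, τ < t → Summable (fun n : ℕ => (v n) ^ (-t))

lemma exc_spec {d : ℕ} (b : ℕ) (K s N : Fin d → ℕ) (f : Fin d → ℕ → ℕ) (E : (Fin d → ℕ) → Prop) :
    ∃ W : Finset (Fin d → Finset ℕ), W.card = exceptions b K s N f E ∧
      ∀ S ∈ Fintype.piFinset (fun l => powersetCard (s l) (range (K l))), S ∉ W →
        E (fun l => change b (K l) (N l) (f l) (S l)) := by
  classical
  refine ⟨_, rfl, fun S hS hSW => ?_⟩
  by_contra h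
  exact hSW (mem_filter.2 ⟨hS, h⟩)

/-- **Elliptic curves over number fields, all parameters in cubes.** For `d, n ≥ 1`, `D, A ≥ 0` and `δ > 0` there is `c > 0` such
that for every family which assigns to every `x` at most `x ^ A` systems `(F; a, b; k, R; u; w)` as above, every `ξ > 0` with
`ξ A ≤ d`, every sequence `v ≥ 1` of exponent of convergence at most `τ ≥ 0` and every `ρ < 1` there is a set `E ⊂ ℝ ^ d` of
Hausdorff dimension at most `(d - ξ A + τ) / (1 - ρ)` such that for each `x` outside `E` there is `i₀` such that for all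
`i ≥ i₀`, all `m ∈ ℕ ^ d` with `|m_l - x_l v_i| ≤ v_i ^ ρ`, all integers `X` with `v_i ^ ξ ≤ X ≤ v_i ^ c`, all systems of `X`, all
real `t` with `|t| ≤ X ^ A` and all `M < M' ≤ X` we have `|∑ w (n) λ (n) n ^ (- i t)| ≤ X ^ (1 / 2 + δ)`, the sum over the
integers `n` with `M < n ≤ M'`. The sequences `v_i = (i + 1) ^ b` and `v_i = b ^ i` have exponent of convergence at most `1 / b`
and `0`. -/
theorem result :
    (∀ (d n D : ℕ), 1 ≤ d → ∀ δ : ℝ, 0 < δ → ∀ A : ℕ, ∃ c : ℝ, 0 < c ∧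
      ∀ (κ : Type) (F : κ → Type) [∀ i, Field (F i)] [∀ i, NumberField (F i)] (a b : ∀ i, Fin d → 𝓞 (F i)) (k R : κ → ℕ)
        (u : ∀ i, HeightOneSpectrum (𝓞 (F i)) → Fin (R i) → ℂ) (w : κ → ℕ → ℂ) (Λ : ℕ → Finset κ),
      (∀ i, finrank ℚ (F i) ≤ n) → (∀ i, Free (a i) (b i)) → (∀ i, Odd (k i) ∧ R i * (k i + 1) ≤ D) →
      (∀ i v j, ‖u i v j‖ ≤ 1) → (∀ i n, ‖w i n‖ ≤ 1) → (∀ x, (Λ x).card ≤ x ^ A) →
      ∀ ξ : ℝ, 0 < ξ → ξ * A ≤ d → ∀ (v : ℕ → ℝ) (τ ρ : ℝ), (∀ i, 1 ≤ v i) → 0 ≤ τ → ExpLe v τ → ρ < 1 →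
      ∃ E : Set (Fin d → ℝ), dimH E ≤ ENNReal.ofReal ((d - ξ * A + τ) / (1 - ρ)) ∧ ∀ x : Fin d → ℝ, x ∉ E →
        ∃ i₀ : ℕ, ∀ i : ℕ, i₀ ≤ i → ∀ m : Fin d → ℕ, (∀ l, |(m l : ℝ) - x l * v i| ≤ (v i) ^ ρ) →
          ∀ X : ℕ, (v i) ^ ξ ≤ X → (X : ℝ) ≤ (v i) ^ c → ∀ j ∈ Λ X, ∀ t : ℝ, |t| ≤ (X : ℝ) ^ A → ∀ M M' : ℕ, M' ≤ X →
            ‖partialSum (F j) (k j) (a j) (b j) (u j) m (w j) t M M'‖ ≤ (X : ℝ) ^ (1 / 2 + δ)) ∧
    (∀ b : ℝ, 0 < b → ExpLe (fun n : ℕ => ((n : ℝ) + 1) ^ b) (1 / b)) ∧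
    (∀ b : ℝ, 1 < b → ExpLe (fun n : ℕ => b ^ n) 0) := by
  classical
  refine ⟨fun d n D hd δ hδ A => ?_, fun κ hκ => Pool.Agent.Y854.GM.expLe_pow κ hκ,
    fun b hb => Pool.Agent.Y854.GM.expLe_geom b hb⟩
  obtain ⟨c, hc, y₀, h⟩ := FewDigitTwistedCoefficients.result 2 d n D le_rfl hd δ hδ A
  refine ⟨c / 4, by positivity, ?_⟩
  intro κ F _ _ a b k R u w Λ hn hab hk hu hw hΛ ξ hξ hξA v τ ρ hv hτ hE hρ
  obtain ⟨E, h1, h2⟩ := Pool.Agent.X174.digitWin (d := d) (c := c) hc y₀ A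
    (fun X m => ∀ j ∈ Λ X, ∀ t : ℝ, |t| ≤ (X : ℝ) ^ A → ∀ M M' : ℕ, M' ≤ X →
            ‖partialSum (F j) (k j) (a j) (b j) (u j) m (w j) t M M'‖ ≤ (X : ℝ) ^ (1 / 2 + δ)) (by
      intro K r y hrK hy N hN f hf
      have h3 := h K r y hrK hy N hN f hf κ F a b k R u w Λ hn hab hk hu hw hΛ
      obtain ⟨W, hW1, hW2⟩ := exc_spec 2 K r N f (fun m => ∀ x : ℕ, y ≤ x → (∀ l, (x : ℝ) ≤ Real.exp (c * r l)) → ∀ i ∈ Λ x,
        ∀ τ : ℝ, |τ| ≤ (x : ℝ) ^ A → ∀ M M' : ℕ, M' ≤ x → ‖partialSum (F i) (k i) (a i) (b i) (u i) m (w i) τ M M'‖ ≤ (x : ℝ) ^ (1 / 2 + δ))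
      rw [← hW1] at h3
      exact ⟨W, h3, fun S hS hSW x hyx hxr => hW2 S hS hSW x hyx hxr⟩)
    hξ hξA hv hτ hE hρ
  refine ⟨E, h1, fun x hx => ?_⟩
  obtain ⟨i₀, hi₀⟩ := h2 x hx
  exact ⟨i₀, fun i hi m hm X hX1 hX2 => hi₀ i hi m hm X hX1 hX2⟩

end Pool.Agent.Results.MP_87c685_nt.CurvesInCubes
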