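import Pool.Agent.X22.KE4

/-!
# Elliptic curves over number fields: partial sums of all coefficients of the twisted L-functions of the odd symmetric powers, for almost all members of arbitrarily thin families

Nothing is used besides Mathlib in the statement.
-/

set_option autoImplicit false

namespace Pool.Agent.Results.MP_87c685_nt.FewDigitTwistedCoefficients

open Finset NumberField IsDedekindDomain Module

section
variable {F : Type} [Field F] [NumberField F]

/-- The number `N v` of the elements of the residue field of `v` minus the number of the affine points of `Y ^ 2 = X ^ 3 + α X + β` over it. -/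
noncomputable def trace (α β : 𝓞 F) (v : HeightOneSpectrum (𝓞 F)) : ℤ :=
  (Ideal.absNorm v.asIdeal : ℤ) - Nat.card {P : (𝓞 F ⧸ v.asIdeal) × (𝓞 F ⧸ v.asIdeal) //
    P.2 ^ 2 = P.1 ^ 3 + Ideal.Quotient.mk v.asIdeal α * P.1 + Ideal.Quotient.mk v.asIdeal β}

/-- The cosine of the Frobenius angle `θ_v`. -/
noncomputable def cosine (α β : 𝓞 F) (v : HeightOneSpectrum (𝓞 F)) : ℝ := (trace α β v : ℝ) / (2 * Real.sqrt (Ideal.absNorm v.asIdeal))

/-- The number `e ^ (i θ)`, `cos θ = c`. -/
noncomputable def eigenvalue (c : ℝ) : ℂ := ⟨c, Real.sqrt (1 - c ^ 2)⟩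

/-- The linear form `∑ m_l a_l`. -/
def form {d : ℕ} (a : Fin d → 𝓞 F) (m : Fin d → ℕ) : 𝓞 F := ∑ l, (m l : 𝓞 F) * a l

/-- The power series `1 / (1 - α T ^ f)`. -/
noncomputable def factor (α : ℂ) (f : ℕ) : PowerSeries ℂ := PowerSeries.mk (fun j => if f ∣ j then α ^ (j / f) else 0)

/-- The degree of a prime `v` of `F` above the prime `p`: the exponent of `p` in the norm of `v`. -/
noncomputable def degree (v : HeightOneSpectrum (𝓞 F)) (p : ℕ) : ℕ := (Ideal.absNorm v.asIdeal).factorization p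

/-- The parameters `u_{v, j} e ^ (i (k - 2 ν) θ_v)`, `0 ≤ ν ≤ k`, of the `k`-th symmetric power of `E : Y ^ 2 = X ^ 3 + a (m) X + b (m)`, twisted by the parameters `u_{v, j}`. -/
noncomputable def parameter {d R : ℕ} (k : ℕ) (a b : Fin d → 𝓞 F) (u : HeightOneSpectrum (𝓞 F) → Fin R → ℂ) (v : HeightOneSpectrum (𝓞 F)) (m : Fin d → ℕ)
    (z : Fin R × Fin (k + 1)) : ℂ :=
  u v z.1 * (eigenvalue (cosine (form a m) (form b m) v) ^ (k - (z.2 : ℕ)) * (starRingEnd ℂ) (eigenvalue (cosine (form a m) (form b m) v)) ^ (z.2 : ℕ))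

end

/-- The product over the primes `v` of `F` above `p` of the Euler factors `∏ 1 / (1 - λ T ^ {f_v})` with the above parameters `λ`, `T = p ^ (-s)`. -/
noncomputable def eulerFactor (F : Type) [Field F] [NumberField F] {d R : ℕ} (k : ℕ) (a b : Fin d → 𝓞 F) (u : HeightOneSpectrum (𝓞 F) → Fin R → ℂ) (p : ℕ) (m : Fin d → ℕ) : PowerSeries ℂ :=
  ∏ᶠ v ∈ {v : HeightOneSpectrum (𝓞 F) | (p : 𝓞 F) ∈ v.asIdeal}, ∏ z, factor (parameter k a b u v m z) (degree v p)

/-- The coefficient of `n ^ (-s)` of the Euler product. -/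
noncomputable def coefficient (F : Type) [Field F] [NumberField F] {d R : ℕ} (k : ℕ) (a b : Fin d → 𝓞 F) (u : HeightOneSpectrum (𝓞 F) → Fin R → ℂ) (n : ℕ) (m : Fin d → ℕ) : ℂ :=
  ∏ p ∈ n.primeFactors, PowerSeries.coeff (n.factorization p) (eulerFactor F k a b u p m)

/-- The sum `∑ w (n) λ (n) n ^ (- i τ)` over the integers `n` with `M < n ≤ M'`, where the `λ (n)` are the coefficients. -/
noncomputable def partialSum (F : Type) [Field F] [NumberField F] {d R : ℕ} (k : ℕ) (a b : Fin d → 𝓞 F) (u : HeightOneSpectrum (𝓞 F) → Fin R → ℂ) (m : Fin d → ℕ) (w : ℕ → ℂ) (τ : ℝ)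
    (M M' : ℕ) : ℂ :=
  ∑ n ∈ Ioc M M', w n * coefficient F k a b u n m * Complex.exp (((-(τ * Real.log n) : ℝ) : ℂ) * Complex.I)

/-- The condition on the linear forms: for some `l₀`, `l₁` the variable `m_{l₀}` occurs (with coefficient `1`) only
in the form `a`, and `m_{l₁}` only in the form `b`. -/
def Free {F : Type} [Field F] [NumberField F] {d : ℕ} (a b : Fin d → 𝓞 F) : Prop := ∃ l₀ l₁, a l₀ = 1 ∧ b l₀ = 0 ∧ a l₁ = 0 ∧ b l₁ = 1

/-- The digit number `i` (counted from the right, beginning with `0`) of `n` in base `b`. -/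
def digit (b i n : ℕ) : ℕ := n / b ^ i % b

/-- The number which arises from the number `N` with at most `K` digits in base `b`, if for every `i ∈ S`
the digit number `i` is replaced by `f i`. -/
def change (b K N : ℕ) (f : ℕ → ℕ) (S : Finset ℕ) : ℕ :=
  ∑ i ∈ range K, (if i ∈ S then f i else digit b i N) * b ^ i

open Classical in
/-- The number of the choices of `s l` of `K l` positions for all `l < d` for which the vector of the numbers obtained by
changing the digits of the `N l` at the chosen positions (according to `f l`) does not have the property `E`. -/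
noncomputable def exceptions {d : ℕ} (b : ℕ) (K s N : Fin d → ℕ) (f : Fin d → ℕ → ℕ) (E : (Fin d → ℕ) → Prop) : ℕ :=
  ((Fintype.piFinset (fun l => powersetCard (s l) (range (K l)))).filter
    (fun S => ¬ E (fun l => change b (K l) (N l) (f l) (S l)))).card

open Pool.Agent.X22.MT Pool.Agent.X22.KE

/-- **Elliptic curves over number fields.** Let a base `b₀ ≥ 2`, integers `d, n ≥ 1`, `D, A ≥ 0` and `δ > 0` be given. There are
`c > 0` and `y₀` such that for all integers `r_l`, `K_l` (`l = 1, ..., d`), `y` with `2 r_l ≤ K_l` and `y ≥ y₀` the following holds.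

Let `0 ≤ N_l < b₀ ^ K_l` be arbitrary integers, prescribe for every position `j` a digit `f l j` different from the digit of
`N_l` in base `b₀`, and let `Λ x` be for every `x` any set of at most `x ^ A` systems of a number field `F` of degree at most `n`, linear forms `a`, `b` in `d` variables with coefficients in the ring of
integers of `F` which satisfy `Free`, an odd `k` and an `R` with `R (k + 1) ≤ D`, complex numbers `u_{v, j}` of absolute value at most `1` for the primes `v` of `F` and `j = 1, ..., R`, and a function `w` on the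
integers with `|w (n)| ≤ 1`.
If one chooses `r_l` of the `K_l` positions and replaces the digits of `N_l` at these positions, then for all but at most a proportion
`1 / y ^ A` of the choices the vector `m` obtained has the following property: for all integers `x` with
`y ≤ x ≤ exp (c r_l)` for all `l`, all systems from `Λ x`, all real `τ` with `|τ| ≤ x ^ A` and all `M < M' ≤ x` we have
`|∑ w (n) λ (n) n ^ (- i τ)| ≤ x ^ (1 / 2 + δ)`, where the sum runs over the integers `n` with `M < n ≤ M'` and the `λ (n)` are the coefficients of the L-function of the `k`-th symmetric power of the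
curve `E_m : Y ^ 2 = X ^ 3 + a (m) X + b (m)` over `F`, twisted by the Euler product over `F` of degree `R` with the parameters `u_{v, j}`. -/
theorem result (b₀ d n D : ℕ) (hb : 2 ≤ b₀) (hd : 1 ≤ d) (δ : ℝ) (hδ : 0 < δ) (A : ℕ) :
    ∃ c : ℝ, 0 < c ∧ ∃ y₀ : ℕ,
    ∀ (K r : Fin d → ℕ) (y : ℕ), (∀ l, 2 * r l ≤ K l) → y₀ ≤ y →
    ∀ N : Fin d → ℕ, (∀ l, N l < b₀ ^ K l) → ∀ f : Fin d → ℕ → ℕ, (∀ l j, f l j < b₀ ∧ f l j ≠ digit b₀ j (N l)) →
    ∀ (κ : Type) (F : κ → Type) [∀ i, Field (F i)] [∀ i, NumberField (F i)] (a b : ∀ i, Fin d → 𝓞 (F i)) (k R : κ → ℕ) (u : ∀ i, HeightOneSpectrum (𝓞 (F i)) → Fin (R i) → ℂ)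
      (w : κ → ℕ → ℂ) (Λ : ℕ → Finset κ),
      (∀ i, finrank ℚ (F i) ≤ n) → (∀ i, Free (a i) (b i)) → (∀ i, Odd (k i) ∧ R i * (k i + 1) ≤ D) → (∀ i v j, ‖u i v j‖ ≤ 1) → (∀ i n, ‖w i n‖ ≤ 1) →
      (∀ x, (Λ x).card ≤ x ^ A) →
      (exceptions b₀ K r N f (fun m => ∀ x : ℕ, y ≤ x → (∀ l, (x : ℝ) ≤ Real.exp (c * r l)) → ∀ i ∈ Λ x,
        ∀ τ : ℝ, |τ| ≤ (x : ℝ) ^ A → ∀ M M' : ℕ, M' ≤ x → ‖partialSum (F i) (k i) (a i) (b i) (u i) m (w i) τ M M'‖ ≤ (x : ℝ) ^ (1 / 2 + δ)) : ℝ) ≤
        1 / (y : ℝ) ^ A * ∏ l, ((K l).choose (r l) : ℝ) := by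
  classical
  obtain ⟨c, hc, y₀, h⟩ := euler_law b₀ d (D * n) hb hd δ hδ A A A
  have h2L : 2 ∣ (b₀ * b₀).factorial := Nat.dvd_factorial (by norm_num) (by nlinarith)
  refine ⟨c, hc, y₀, fun K r y hrK hy N hN f hf κ F _ _ a b k R u w Λ hn hab hk hu hw hΛ => ?_⟩
  have h2 := h K r y hrK hy N hN f hf κ Λ (fun x _ => hΛ x) (fun i => kfac (fpar (k i) (a i) (b i) (u i))) (fun i => by
      obtain ⟨l₀, l₁, h1, h2, h3, h4⟩ := hab i
      exact fpar_loc (k i) (hk i).1 (a i) (b i) (u i) (hu i) n D (hn i) (hk i).2 l₀ l₁ h1 h2 h3 h4 _ h2L) w hw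
    (fun m => ∀ x : ℕ, y ≤ x → (∀ l, (x : ℝ) ≤ Real.exp (c * r l)) → ∀ i ∈ Λ x,
        ∀ τ : ℝ, |τ| ≤ (x : ℝ) ^ A → ∀ M M' : ℕ, M' ≤ x → ‖partialSum (F i) (k i) (a i) (b i) (u i) m (w i) τ M M'‖ ≤ (x : ℝ) ^ (1 / 2 + δ))
    (fun m hm => hm)
  unfold exceptions
  exact h2

end Pool.Agent.Results.MP_87c685_nt.FewDigitTwistedCoefficients
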