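import Pool.Agent.X124.KP.Law

/-!
# Twisted Dirichlet sums of the `L`-functions of the members of ALL pencils `y² = f(x) - n q(x)` of elliptic (and hyperelliptic) curves OVER
ALL number fields `K` (not only base changes from `ℚ`), for ALL integers `n` near `± α v_i`, outside a set of `α` of small dimension

The twists are by arbitrary functions of absolute value at most `1` on the places, up to a power of `x` of them at a time: for instance by all
Hecke characters with conductor and parameters at infinity bounded by a power of `x`.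
-/

set_option autoImplicit false

namespace Pool.Agent.Results.MP_87c685_nt.PencilsOverK

open Finset Polynomial

/-- The reduction of a polynomial with coefficients in `ℤ[Y]` modulo `p` and `Y - ρ` (that is, modulo the place `v = (p, θ - ρ)` of
`K = ℚ[Y]/(h)`, `θ` the class of `Y`). -/
noncomputable def red (p ρ : ℕ) (f : ℤ[X][X]) : (ZMod p)[X] := f.map (eval₂RingHom (Int.castRingHom (ZMod p)) (ρ : ZMod p))

/-- The trace of Frobenius `p + 1 - #C(𝔽_p)` at the place `v = (p, θ - ρ)` of the curve `C : y² = f(x) - n q(x)` over `K`, `f` and `q` in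
`ℤ[θ][x]` (`f` monic of odd degree greater than the degree of `q`, so that there is one point at infinity): `p` minus the number of the affine
points. -/
noncomputable def trace (f q : ℤ[X][X]) (n : ℤ) (p ρ : ℕ) : ℤ :=
  p - Nat.card {P : ZMod p × ZMod p // P.2 ^ 2 = (red p ρ (f - C (C n) * q)).eval P.1}

open Classical in
/-- The places of degree one above `p` of the number field `K = ℚ[Y]/(h)`, `h` monic and irreducible: the zeros `0 ≤ ρ < p` of `h` modulo `p`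
(for `p` not dividing the discriminant of `h` they correspond to the primes `v = (p, θ - ρ)` with residue field `𝔽_p`). -/
noncomputable def places (h : ℤ[X]) (p : ℕ) : Finset ℕ := (range p).filter (fun ρ : ℕ => (p : ℤ) ∣ h.eval (ρ : ℤ))

/-- The sum of `ψ(v) a_v (log N v) (N v) ^ (- 1 / 2 - i σ)` over the places `v` of degree one of `K = ℚ[Y]/(h)` of odd norm `≤ x`, for the curve
`y² = f(x) - n q(x)` over `K`. -/
noncomputable def dirichletSum (h : ℤ[X]) (f q : ℤ[X][X]) (ψ : ℕ → ℕ → ℂ) (n : ℤ) (x : ℕ) (σ : ℝ) : ℂ :=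
  ∑ p ∈ (range (x + 1)).filter (fun p => p.Prime ∧ p ≠ 2), ∑ ρ ∈ places h p,
    ψ p ρ * ((trace f q n p ρ / √(p : ℝ) * Real.log p : ℝ) : ℂ) * (p : ℂ) ^ (-(σ * Complex.I))

theorem places_le {h : ℤ[X]} (hm : h.Monic) (p : ℕ) (hp : p.Prime) : (places h p).card ≤ h.natDegree := by
  classical
  unfold places
  have : Fact p.Prime := ⟨hp⟩
  have hmp : (h.map (Int.castRingHom (ZMod p))).Monic := hm.map _
  have h1 : ((range p).filter (fun r : ℕ => (p : ℤ) ∣ h.eval (r : ℤ))).card ≤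
      (h.map (Int.castRingHom (ZMod p))).roots.toFinset.card := by
    apply card_le_card_of_injOn (fun r : ℕ => (r : ZMod p))
    · intro r hr
      rw [mem_coe, mem_filter] at hr
      rw [mem_coe, Multiset.mem_toFinset, mem_roots hmp.ne_zero, IsRoot.def]
      have h2 : (h.map (Int.castRingHom (ZMod p))).eval ((r : ℕ) : ZMod p) = ((h.eval (r : ℤ) : ℤ) : ZMod p) := by
        simp
      rw [h2]
      exact (ZMod.intCast_zmod_eq_zero_iff_dvd _ p).2 hr.2
    · intro r hr r' hr' he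
      rw [mem_coe, mem_filter, mem_range] at hr hr'
      have h3 := (ZMod.natCast_eq_natCast_iff' r r' p).1 he
      rwa [Nat.mod_eq_of_lt hr.1, Nat.mod_eq_of_lt hr'.1] at h3
  refine h1.trans ((Multiset.toFinset_card_le _).trans ((card_roots' _).trans ?_))
  exact natDegree_map_le

/-- a Bezout identity -/
lemma bezout {h c : ℤ[X]} (hm : h.Monic) (hi : Irreducible h) (hc : ¬ h ∣ c) : ∃ (s t : ℤ[X]) (m : ℤ), m ≠ 0 ∧ s * h + t * c = C m := by
  have h1 : Irreducible (h.map (algebraMap ℤ ℚ)) := (hm.irreducible_iff_irreducible_map_fraction_map).1 hi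
  have hinj : Function.Injective (algebraMap ℤ ℚ) := (algebraMap ℤ ℚ).injective_int
  have h2 : ¬ h.map (algebraMap ℤ ℚ) ∣ c.map (algebraMap ℤ ℚ) := by
    rw [Polynomial.map_dvd_map _ hinj hm]
    exact hc
  obtain ⟨s, t, hst⟩ := h1.coprime_iff_not_dvd.2 h2
  obtain ⟨b, hb⟩ := IsLocalization.integerNormalization_map_to_map (nonZeroDivisors ℤ) s
  obtain ⟨d, hd⟩ := IsLocalization.integerNormalization_map_to_map (nonZeroDivisors ℤ) t
  refine ⟨C (d : ℤ) * IsLocalization.integerNormalization (nonZeroDivisors ℤ) s,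
    C (b : ℤ) * IsLocalization.integerNormalization (nonZeroDivisors ℤ) t, (b : ℤ) * (d : ℤ),
    mul_ne_zero (nonZeroDivisors.ne_zero b.2) (nonZeroDivisors.ne_zero d.2), ?_⟩
  apply Polynomial.map_injective _ hinj
  rw [Polynomial.map_add, Polynomial.map_mul, Polynomial.map_mul, Polynomial.map_mul, Polynomial.map_mul, hb, hd, Polynomial.map_C,
    Polynomial.map_C, Polynomial.map_C, map_mul, C_mul]
  have e1 : ((b : ℤ) • s : ℚ[X]) = C (algebraMap ℤ ℚ (b : ℤ)) * s := by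
    rw [zsmul_eq_mul]
    simp
  have e2 : ((d : ℤ) • t : ℚ[X]) = C (algebraMap ℤ ℚ (d : ℤ)) * t := by
    rw [zsmul_eq_mul]
    simp
  rw [e1, e2]
  linear_combination (C (algebraMap ℤ ℚ (b : ℤ)) * C (algebraMap ℤ ℚ (d : ℤ))) * hst

/-- the number of zeros -/
lemma card_bound (p : ℕ) (hp : p.Prime) (R : Finset ℕ) (g : ℕ → (ZMod p)[X]) (D : ℕ) (hg : ∀ ρ ∈ R, g ρ ≠ 0 ∧ (g ρ).natDegree ≤ D)
    (P : ↥(R ×ˢ range p) → Prop) (hP : ∀ j, P j → (g j.1.1).eval (j.1.2 : ZMod p) = 0) :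
    Nat.card {j : ↥(R ×ˢ range p) // P j} ≤ R.card * D := by
  classical
  have : Fact p.Prime := ⟨hp⟩
  rw [Nat.card_eq_fintype_card, Fintype.card_subtype]
  have h1 : ((univ : Finset ↥(R ×ˢ range p)).filter P).card ≤ (R.sigma (fun ρ => (g ρ).roots.toFinset)).card := by
    apply card_le_card_of_injOn (fun j => (⟨j.1.1, (j.1.2 : ZMod p)⟩ : (_ : ℕ) × ZMod p))
    · intro j hj
      rw [mem_coe, mem_filter] at hj
      rw [mem_coe, mem_sigma]
      have hj1 := (mem_product.1 j.2).1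
      refine ⟨hj1, ?_⟩
      rw [Multiset.mem_toFinset, mem_roots (hg _ hj1).1, IsRoot.def]
      exact hP j hj.2
    · intro j _ j' _ he
      have hj2 := mem_range.1 (mem_product.1 j.2).2
      have hj2' := mem_range.1 (mem_product.1 j'.2).2
      rw [Sigma.mk.injEq, heq_eq_eq] at he
      have h3 := (ZMod.natCast_eq_natCast_iff' _ _ p).1 he.2
      rw [Nat.mod_eq_of_lt hj2, Nat.mod_eq_of_lt hj2'] at h3
      exact Subtype.ext (Prod.ext he.1 h3)
  refine h1.trans ?_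
  rw [card_sigma]
  refine (sum_le_card_nsmul _ _ D fun ρ hρ => ?_).trans (le_of_eq (by rw [smul_eq_mul]))
  exact (Multiset.toFinset_card_le _).trans ((card_roots' _).trans (hg ρ hρ).2)

/-- the polynomials `f - y q` modulo a place are not zero -/
lemma red_sub {f q : ℤ[X][X]} (hf : f.Monic) (hd : q.natDegree < f.natDegree) (p ρ : ℕ) [Fact p.Prime] (y : ZMod p) :
    red p ρ f - C y * red p ρ q ≠ 0 ∧ (red p ρ f - C y * red p ρ q).natDegree ≤ f.natDegree := by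
  have h1 : (red p ρ f).Monic := hf.map _
  have h2 : (red p ρ f).natDegree = f.natDegree := hf.natDegree_map _
  have h3 : (C y * red p ρ q).natDegree < (red p ρ f).natDegree := by
    rw [h2]
    exact (natDegree_C_mul_le _ _).trans_lt (natDegree_map_le.trans_lt hd)
  have h4 : (red p ρ f - C y * red p ρ q).natDegree = f.natDegree := by
    rw [natDegree_sub_eq_left_of_natDegree_lt h3, h2]
  refine ⟨fun h0 => ?_, h4.le⟩
  rw [h0, natDegree_zero] at h4
  omega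

/-- `q` is not zero modulo almost all places -/
lemma red_ne {h : ℤ[X]} {q : ℤ[X][X]} {j : ℕ} {s t : ℤ[X]} {m : ℤ} (hst : s * h + t * q.coeff j = C m) (p ρ : ℕ)
    (hρ : ρ ∈ places h p) (hpm : ¬ p ∣ m.natAbs) : red p ρ q ≠ 0 := by
  classical
  intro h0
  apply hpm
  have h1 : (eval₂RingHom (Int.castRingHom (ZMod p)) (ρ : ZMod p)) (q.coeff j) = 0 := by
    have := congrArg (fun g => g.coeff j) h0
    simpa [red, coeff_map] using this
  have h2 : (eval₂RingHom (Int.castRingHom (ZMod p)) (ρ : ZMod p)) h = 0 := by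
    unfold places at hρ
    rw [mem_filter] at hρ
    have h3 : (eval₂RingHom (Int.castRingHom (ZMod p)) (ρ : ZMod p)) h = ((h.eval (ρ : ℤ) : ℤ) : ZMod p) := by
      rw [coe_eval₂RingHom, ← Polynomial.eval_map]
      simp
    rw [h3]
    exact (ZMod.intCast_zmod_eq_zero_iff_dvd _ p).2 hρ.2
  have h3 := congrArg (eval₂RingHom (Int.castRingHom (ZMod p)) (ρ : ZMod p)) hst
  rw [map_add, map_mul, map_mul, h1, h2, mul_zero, mul_zero, add_zero] at h3
  have h4 : (eval₂RingHom (Int.castRingHom (ZMod p)) (ρ : ZMod p)) (C m) = ((m : ℤ) : ZMod p) := by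
    rw [coe_eval₂RingHom, eval₂_C]
    rfl
  rw [h4] at h3
  exact Int.natCast_dvd.1 ((ZMod.intCast_zmod_eq_zero_iff_dvd _ p).1 h3.symm)

/-- the values of `f` -/
noncomputable def val (f : ℤ[X][X]) (p : ℕ) (j : ℕ × ℕ) : ZMod p := (red p j.1 f).eval (j.2 : ZMod p)

lemma sum_range_zmod (p : ℕ) [NeZero p] (F : ZMod p → ℝ) : ∑ t ∈ range p, F (t : ZMod p) = ∑ x : ZMod p, F x := by
  refine sum_bij' (fun i _ => (i : ZMod p)) (fun x _ => x.val) (fun i _ => mem_univ _)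
    (fun x _ => mem_range.2 (ZMod.val_lt x)) (fun i hi => ?_) (fun x _ => ?_) (fun i _ => rfl)
  · exact ZMod.val_natCast_of_lt (mem_range.1 hi)
  · exact ZMod.natCast_zmod_val x

lemma tot_trace (f q : ℤ[X][X]) (n : ℤ) (p : ℕ) (hp : p.Prime) (h2 : p ≠ 2) (R : Finset ℕ) (w : ℕ → ℝ) :
    Pool.Agent.X124.KP.tot p (R ×ˢ range p) (val f p) (val q p) (fun j => -w j.1) n = ∑ ρ ∈ R, w ρ * (trace f q n p ρ : ℝ) := by
  classical
  have hF := Fact.mk hp
  have hc : ringChar (ZMod p) ≠ 2 := by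
    rw [ZMod.ringChar_zmod_n]
    exact h2
  rw [Pool.Agent.X124.KP.tot_eq p hp]
  rw [sum_coe_sort (R ×ˢ range p) (fun j => (Pool.Agent.H304R2.EC.Pts.qc p (val f p j - (n : ZMod p) * val q p j) : ℝ) * -w j.1),
    sum_product]
  refine sum_congr rfl fun ρ _ => ?_
  have h3 := Pool.Agent.H126T.card_aff hc (red p ρ (f - C (C n) * q)) (1 : ZMod p) one_ne_zero
  simp only [one_mul, map_one] at h3
  have h4 : (trace f q n p ρ : ℝ) = -∑ x : ZMod p, (Pool.Agent.H304R2.EC.Pts.qc p ((red p ρ (f - C (C n) * q)).eval x) : ℝ) := by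
    unfold trace
    rw [h3, ZMod.card]
    push_cast
    ring
  have h5 : ∀ t : ZMod p, (red p ρ (f - C (C n) * q)).eval t = (red p ρ f).eval t - (n : ZMod p) * (red p ρ q).eval t := by
    intro t
    unfold red
    rw [Polynomial.map_sub, Polynomial.map_mul, Polynomial.map_C, eval_sub, eval_mul, eval_C, coe_eval₂RingHom, eval₂_C]
    rfl
  have h6 := sum_range_zmod p (fun t => (Pool.Agent.H304R2.EC.Pts.qc p ((red p ρ f).eval t - (n : ZMod p) * (red p ρ q).eval t) : ℝ) * -w ρ)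
  unfold val
  beta_reduce at h6 ⊢
  rw [h6, h4, ← sum_mul]
  simp only [h5]
  ring

lemma tot_smul {J : Type} (p : ℕ) (S : Finset J) (a b : J → ZMod p) (u : J → ℝ) (r : ℝ) (n : ℤ) :
    Pool.Agent.X124.KP.tot p S a b (fun j => r * u j) n = r * Pool.Agent.X124.KP.tot p S a b u n := by
  by_cases hp : p.Prime
  · have := Fact.mk hp
    rw [Pool.Agent.X124.KP.tot_eq p hp, Pool.Agent.X124.KP.tot_eq p hp, mul_sum]
    refine sum_congr rfl fun j _ => ?_
    ring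
  · unfold Pool.Agent.X124.KP.tot
    rw [dif_neg hp, dif_neg hp, mul_zero]

/-- Let `δ > 0` and `A ≥ 0`. There are `κ > 0` and `C > 0` such that for all reals `v_i ≥ 1` with `∑ v_i ^ (-u) < ∞` for all `u > τ` (`τ ≥ 0`;
for example `v_i = 2 ^ i`, `τ = 0`), all `θ < 1` and all systems of sets `U_K(x)` of at most `x ^ A` functions `ψ` with `|ψ(v)| ≤ 1` on the places
of `K` (one set for each `K = ℚ[Y]/(h)` and `x`) there is a set `E` of reals of Hausdorff dimension at most `(1 - κ + τ) / (1 - θ)` with the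
following property. For every real `α > 0` outside `E`, ALL monic irreducible `h ∈ ℤ[Y]` (all number fields `K = ℚ[Y]/(h)`), ALL
`f, q ∈ ℤ[Y][x]` with `f` monic of odd degree `> deg q` and `q ≠ 0` in `K[x]`, all `i ≥ i₀(α, h, f, q)`, ALL integers `n` with
`||n| - α v_i| ≤ v_i ^ θ`, ALL integers `x` with `(log |n|) ^ C ≤ x ≤ |n| ^ κ`, ALL `ψ ∈ U_K(x)` and ALL real `σ` with `|σ| ≤ x ^ A`, the sum of
`ψ(v) a_v (log N v) (N v) ^ (- 1 / 2 - i σ)` over the places `v` of degree one of `K` of odd norm `≤ x`, for the curve `y² = f(x) - n q(x)` over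
`K`, is at most `x ^ (1 / 2 + δ)` in absolute value. -/
theorem result (δ A : ℝ) (hδ : 0 < δ) (hA : 0 ≤ A) :
    ∃ κ C : ℝ, 0 < κ ∧ 0 < C ∧ ∀ (v : ℕ → ℝ) (τ θ : ℝ), (∀ i, 1 ≤ v i) → 0 ≤ τ → θ < 1 →
      (∀ u : ℝ, τ < u → Summable (fun i => v i ^ (-u))) →
      ∀ U : ℤ[X] → ℕ → Finset (ℕ → ℕ → ℂ), (∀ h x, 2 ≤ x → ((U h x).card : ℝ) ≤ (x : ℝ) ^ A) → (∀ h x, ∀ ψ ∈ U h x, ∀ p ρ, ‖ψ p ρ‖ ≤ 1) →
      ∃ E : Set ℝ, dimH E ≤ ENNReal.ofReal ((1 - κ + τ) / (1 - θ)) ∧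
        ∀ α : ℝ, 0 < α → α ∉ E → ∀ (h : ℤ[X]) (f q : ℤ[X][X]), h.Monic → Irreducible h → f.Monic → Odd f.natDegree →
          q.natDegree < f.natDegree → (∃ j, ¬ h ∣ q.coeff j) →
          ∃ i₀ : ℕ, ∀ i : ℕ, i₀ ≤ i → ∀ n : ℤ, |(|(n : ℝ)|) - α * v i| ≤ v i ^ θ →
            ∀ x : ℕ, Real.log |(n : ℝ)| ^ C ≤ x → (x : ℝ) ≤ |(n : ℝ)| ^ κ → ∀ ψ ∈ U h x, ∀ σ : ℝ, |σ| ≤ (x : ℝ) ^ A →
              ‖dirichletSum h f q ψ n x σ‖ ≤ (x : ℝ) ^ (1 / 2 + δ) := by
  classical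
  obtain ⟨W, hW1, hW2, hW3⟩ := Pool.Agent.X35.GV.heights A hA
  obtain ⟨κ, C₀, hκ, hC, H⟩ := Pool.Agent.X124.KP.law (J := ℕ × ℕ) (δ / 2) (2 * A + 7) (by positivity)
  refine ⟨κ, C₀, hκ, hC, fun v τ θ hv1 hτ hθ hv U hU hψ => ?_⟩
  let Γ : Type := {c : ℤ[X] × ℤ[X][X] × ℤ[X][X] // c.1.Monic ∧ Irreducible c.1 ∧ c.2.1.Monic ∧ c.2.2.natDegree < c.2.1.natDegree ∧
    ∃ j, ¬ c.1 ∣ c.2.2.coeff j}
  have hcount : Countable Γ := by
    have h0 := Pool.Agent.X35.GM.countable_int_poly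
    have h1 : Countable ℤ[X][X] := by
      rw [← Cardinal.mk_le_aleph0_iff]
      exact Polynomial.cardinalMk_le_max.trans (max_le Cardinal.mk_le_aleph0 le_rfl)
    exact Subtype.countable
  have hbez : ∀ c : Γ, ∃ j, ∃ (s t : ℤ[X]) (m : ℤ), m ≠ 0 ∧ s * c.1.1 + t * c.1.2.2.coeff j = Polynomial.C m := by
    intro c
    obtain ⟨j, hj⟩ := c.2.2.2.2.2
    obtain ⟨s, t, m, hm, hst⟩ := bezout c.2.1 c.2.2.1 hj
    exact ⟨j, s, t, m, hm, hst⟩
  choose jj ss tt mm hmm hst using hbez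
  obtain ⟨w, hw⟩ : ∃ w : (ℕ → ℕ → ℂ) × Bool → ℕ → ℕ → ℝ, w = fun d p ρ => if d.2 then (d.1 p ρ).re else (d.1 p ρ).im := ⟨_, rfl⟩
  have hw1 : ∀ h x, ∀ ψ ∈ U h x, ∀ b p ρ, |w (ψ, b) p ρ| ≤ 1 := by
    intro h x ψ hψU b p ρ
    rw [hw]
    beta_reduce
    split_ifs
    · exact (Complex.abs_re_le_norm _).trans (hψ h x ψ hψU p ρ)
    · exact (Complex.abs_im_le_norm _).trans (hψ h x ψ hψU p ρ)
  obtain ⟨K, hK⟩ : ∃ K : Γ → ℝ, K = fun c => (c.1.1.natDegree : ℝ) * (1 + c.1.2.1.natDegree + c.1.2.2.natDegree) + 1 := ⟨_, rfl⟩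
  have hK0 : ∀ c, 0 < K c := by
    intro c
    rw [hK]
    beta_reduce
    positivity
  have hcard : ∀ (c : Γ) (p : ℕ), p.Prime → ((places c.1.1 p ×ˢ range p).card : ℝ) ≤ K c * p := by
    intro c p hp
    rw [card_product, card_range]
    push_cast
    apply mul_le_mul_of_nonneg_right _ (Nat.cast_nonneg _)
    have h1 : ((places c.1.1 p).card : ℝ) ≤ c.1.1.natDegree := by exact_mod_cast places_le c.2.1 p hp
    rw [hK]
    beta_reduce
    have h2 : (0 : ℝ) ≤ c.1.1.natDegree * (c.1.2.1.natDegree + c.1.2.2.natDegree) := by positivity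
    linarith
  obtain ⟨V, hV⟩ : ∃ V : Γ → ℕ → Finset (ℕ → ℕ × ℕ → ℝ), V = fun c x => ((U c.1.1 x ×ˢ (univ : Finset Bool)) ×ˢ W x).image
      (fun d p j => d.2 p * -w d.1 p j.1) := ⟨_, rfl⟩
  have hV1 : ∀ c x, 2 ≤ x → ((V c x).card : ℝ) ≤ (x : ℝ) ^ (2 * A + 7) := by
    intro c x hx
    have hx2 : (2 : ℝ) ≤ x := by exact_mod_cast hx
    have hx0 : (0 : ℝ) < x := by linarith
    have h1 : ((V c x).card : ℝ) ≤ ((U c.1.1 x ×ˢ (univ : Finset Bool)) ×ˢ W x).card := by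
      rw [hV]
      exact_mod_cast card_image_le
    refine h1.trans ?_
    rw [card_product, card_product, card_univ, Fintype.card_bool]
    push_cast
    have e1 : (x : ℝ) ^ (2 * A + 7) = (x : ℝ) ^ A * (x : ℝ) * (x : ℝ) ^ (A + 6) := by
      rw [← Real.rpow_add_one hx0.ne', ← Real.rpow_add hx0]
      congr 1
      ring
    rw [e1]
    have h2 := hU c.1.1 x hx
    have h3 := hW1 x hx
    gcongr
  have hV2 : ∀ c x, ∀ u ∈ V c x, ∀ p j, |u p j| ≤ 1 := by
    intro c x u hu p j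
    rw [hV, mem_image] at hu
    obtain ⟨d, hd, rfl⟩ := hu
    rw [mem_product, mem_product] at hd
    rw [abs_mul, abs_neg]
    exact mul_le_one₀ (hW2 x d.2 hd.2 p) (abs_nonneg _) (hw1 c.1.1 x d.1.1 hd.1.1 d.1.2 p j.1)
  obtain ⟨E, hE1, hE2⟩ := H v τ θ hv1 hτ hθ hv Γ (fun c p => places c.1.1 p ×ˢ range p)
    (fun c p => val c.1.2.1 p) (fun c p => val c.1.2.2 p) K (fun c => (mm c).natAbs)
    hK0 (fun c => Int.natAbs_ne_zero.2 (hmm c)) hcard
    (by
      intro c p hp hpm y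
      have := Fact.mk hp
      have h1 := card_bound p hp (places c.1.1 p) (fun ρ => red p ρ c.1.2.1 - Polynomial.C y * red p ρ c.1.2.2) c.1.2.1.natDegree
        (fun ρ _ => red_sub c.2.2.2.1 c.2.2.2.2.1 p ρ y) (fun j => val c.1.2.1 p j = y * val c.1.2.2 p j) (by
          intro j hj
          rw [eval_sub, eval_mul, eval_C]
          exact sub_eq_zero.2 hj)
      have h2 := card_bound p hp (places c.1.1 p) (fun ρ => red p ρ c.1.2.2) c.1.2.2.natDegree
        (fun ρ hρ => ⟨red_ne (hst c) p ρ hρ hpm, natDegree_map_le⟩) (fun j => val c.1.2.2 p j = 0) (fun j hj => hj)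
      have h3 : ((places c.1.1 p).card : ℝ) ≤ c.1.1.natDegree := by exact_mod_cast places_le c.2.1 p hp
      have h4 : (Nat.card {j : ↥(places c.1.1 p ×ˢ range p) // val c.1.2.1 p j = y * val c.1.2.2 p j} : ℝ) ≤
          (places c.1.1 p).card * c.1.2.1.natDegree := by exact_mod_cast h1
      have h5 : (Nat.card {j : ↥(places c.1.1 p ×ˢ range p) // val c.1.2.2 p j = 0} : ℝ) ≤
          (places c.1.1 p).card * c.1.2.2.natDegree := by exact_mod_cast h2
      have h6 : ((places c.1.1 p).card : ℝ) * (c.1.2.1.natDegree + c.1.2.2.natDegree) ≤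
          c.1.1.natDegree * (c.1.2.1.natDegree + c.1.2.2.natDegree) := by gcongr
      rw [hK]
      beta_reduce
      have h7 : (0 : ℝ) ≤ c.1.1.natDegree := Nat.cast_nonneg _
      linarith)
    V hV1 hV2
  refine ⟨E, hE1, fun α hα hαE h f q hh hirr hf _ hd hq => ?_⟩
  obtain ⟨c, hc⟩ : ∃ c : Γ, c.1 = (h, f, q) := ⟨⟨(h, f, q), hh, hirr, hf, hd, hq⟩, rfl⟩
  obtain ⟨i₁, hi₁⟩ := hE2 α hα hαE c
  have hKc := hK0 c
  -- absorbing constants
  obtain ⟨x₀, hx₀⟩ : ∃ x₀ : ℝ, ∀ x : ℝ, x₀ ≤ x → 4 * (x : ℝ) ^ (1 / 2 + δ / 2) +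
      4 * (K c * (x : ℝ) ^ (1 / 2 : ℝ) * Real.log x) ≤ (x : ℝ) ^ (1 / 2 + δ) := by
    have h1 := (isLittleO_log_rpow_atTop (show (0 : ℝ) < δ / 2 by positivity)).bound (show (0 : ℝ) < 1 by norm_num)
    have h2 : Filter.Tendsto (fun x : ℝ => x ^ (δ / 2)) Filter.atTop Filter.atTop := tendsto_rpow_atTop (by positivity)
    have h3 := h2.eventually_ge_atTop (4 + 4 * K c)
    obtain ⟨x₀, hx₀⟩ := Filter.eventually_atTop.1 (h1.and (h3.and (Filter.eventually_ge_atTop (1 : ℝ))))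
    refine ⟨x₀, fun x hx => ?_⟩
    obtain ⟨h4, h5, h6⟩ := hx₀ x hx
    have hx0 : 0 < x := by linarith
    rw [one_mul, Real.norm_eq_abs, Real.norm_eq_abs, abs_of_nonneg (Real.log_nonneg h6), abs_of_pos (Real.rpow_pos_of_pos hx0 _)] at h4
    have e1 : x ^ (1 / 2 + δ / 2) = x ^ (1 / 2 : ℝ) * x ^ (δ / 2) := Real.rpow_add hx0 _ _
    have e2 : x ^ (1 / 2 + δ) = x ^ (1 / 2 : ℝ) * (x ^ (δ / 2) * x ^ (δ / 2)) := by
      rw [← Real.rpow_add hx0, ← Real.rpow_add hx0]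
      congr 1
      ring
    rw [e1, e2]
    have h7 : 0 < x ^ (1 / 2 : ℝ) := Real.rpow_pos_of_pos hx0 _
    have h8 : 0 < x ^ (δ / 2) := Real.rpow_pos_of_pos hx0 _
    calc 4 * (x ^ (1 / 2 : ℝ) * x ^ (δ / 2)) + 4 * (K c * x ^ (1 / 2 : ℝ) * Real.log x)
        ≤ 4 * (x ^ (1 / 2 : ℝ) * x ^ (δ / 2)) + 4 * (K c * x ^ (1 / 2 : ℝ) * x ^ (δ / 2)) := by gcongr
      _ = x ^ (1 / 2 : ℝ) * ((4 + 4 * K c) * x ^ (δ / 2)) := by ring
      _ ≤ x ^ (1 / 2 : ℝ) * (x ^ (δ / 2) * x ^ (δ / 2)) := by gcongr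
  obtain ⟨i₂, hi₂⟩ := Pool.Agent.X35.GV.log_large hv1 hτ hθ hv α hα x₀ C₀ hC
  refine ⟨max i₁ i₂, fun i hi n hn x hx1 hx2 ψ hψU σ hσ => ?_⟩
  have hlarge := hi₂ i (le_trans (le_max_right _ _) hi) n hn
  have hxx : x₀ ≤ x := hlarge.trans hx1
  obtain ⟨hx3, hS⟩ := hi₁ i ((le_max_left _ _).trans hi) n hn x hx1 hx2
  have hc1 : c.1.1 = h := by rw [hc]
  have hSb : ∀ b : Bool, ∀ w' ∈ W x, |∑ p ∈ Pool.Agent.X35.GV.op x, w' p * (Pool.Agent.X124.KP.tot p (places c.1.1 p ×ˢ range p)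
      (val c.1.2.1 p) (val c.1.2.2 p) (fun j => -w (ψ, b) p j.1) n / √(p : ℝ) * Real.log p)| ≤ (x : ℝ) ^ (1 / 2 + δ / 2) := by
    intro b w' hw'
    have h1 := hS (fun p j => w' p * -w (ψ, b) p j.1) (by
      rw [hV, mem_image]
      refine ⟨((ψ, b), w'), ?_, rfl⟩
      rw [mem_product, mem_product]
      exact ⟨⟨by rw [hc1]; exact hψU, mem_univ _⟩, hw'⟩)
    refine le_trans (le_of_eq ?_) h1
    congr 1
    refine sum_congr rfl fun p _ => ?_
    rw [tot_smul]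
    ring
  have hbd : ∀ b : Bool, ∀ p ∈ Pool.Agent.X35.GV.op x, |Pool.Agent.X124.KP.tot p (places c.1.1 p ×ˢ range p) (val c.1.2.1 p)
      (val c.1.2.2 p) (fun j => -w (ψ, b) p j.1) n / √(p : ℝ) * Real.log p| ≤ K c * (x : ℝ) ^ (1 / 2 : ℝ) * Real.log x := by
    intro b p hp
    obtain ⟨q1, q2, q3, q4, q5⟩ := Pool.Agent.X35.GV.op_log hp
    rw [Pool.Agent.X35.GV.mem_op] at hp
    have hp0 : (0 : ℝ) < p := by linarith
    have hpb0 : 0 < √(p : ℝ) := Real.sqrt_pos.2 hp0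
    have hpp : √(p : ℝ) * √(p : ℝ) = p := Real.mul_self_sqrt hp0.le
    have h1 := Pool.Agent.X124.KP.tot_abs p hp.2.1 (places c.1.1 p ×ˢ range p) (val c.1.2.1 p) (val c.1.2.2 p) (fun j => -w (ψ, b) p j.1)
      (fun j _ => by rw [abs_neg]; exact hw1 h x ψ hψU _ _ _) (K c) (hcard c p hp.2.1) n
    rw [abs_mul, abs_div, abs_of_pos hpb0, abs_of_pos q3]
    have h3 : √(p : ℝ) ≤ (x : ℝ) ^ (1 / 2 : ℝ) := by
      rw [← Real.sqrt_eq_rpow]
      exact Real.sqrt_le_sqrt q2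
    have e2 : K c * p / √(p : ℝ) = K c * √(p : ℝ) := by rw [div_eq_iff hpb0.ne', mul_assoc, hpp]
    calc _ ≤ (K c * p) / √(p : ℝ) * Real.log p := by gcongr
      _ = K c * √(p : ℝ) * Real.log p := by rw [e2]
      _ ≤ _ := by gcongr
  have hlogx := Real.log_natCast_nonneg x
  have hfin1 := hW3 x (by omega) _ _ _ (by positivity) (hbd true) (hSb true) σ hσ
  have hfin2 := hW3 x (by omega) _ _ _ (by positivity) (hbd false) (hSb false) σ hσ
  have hdd : dirichletSum h f q ψ n x σ = (∑ p ∈ Pool.Agent.X35.GV.op x,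
      ((Pool.Agent.X124.KP.tot p (places c.1.1 p ×ˢ range p) (val c.1.2.1 p) (val c.1.2.2 p) (fun j' => -w (ψ, true) p j'.1) n /
        √(p : ℝ) * Real.log p : ℝ) : ℂ) * (p : ℂ) ^ (-(σ * Complex.I))) + Complex.I * (∑ p ∈ Pool.Agent.X35.GV.op x,
      ((Pool.Agent.X124.KP.tot p (places c.1.1 p ×ˢ range p) (val c.1.2.1 p) (val c.1.2.2 p) (fun j' => -w (ψ, false) p j'.1) n /
        √(p : ℝ) * Real.log p : ℝ) : ℂ) * (p : ℂ) ^ (-(σ * Complex.I))) := by
    unfold dirichletSum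
    rw [mul_sum, ← sum_add_distrib]
    refine sum_congr rfl fun p hp => ?_
    have hp' := Pool.Agent.X35.GV.mem_op.1 hp
    have h1 := tot_trace c.1.2.1 c.1.2.2 n p hp'.2.1 hp'.2.2 (places c.1.1 p) (w (ψ, true) p)
    have h2 := tot_trace c.1.2.1 c.1.2.2 n p hp'.2.1 hp'.2.2 (places c.1.1 p) (w (ψ, false) p)
    rw [h1, h2, hc]
    have h3 : ∀ ρ, ψ p ρ = (w (ψ, true) p ρ : ℂ) + (w (ψ, false) p ρ : ℂ) * Complex.I := by
      intro ρ
      rw [hw]
      simp [Complex.re_add_im]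
    simp only [h3]
    push_cast
    simp only [sum_div, sum_mul, mul_sum, ← sum_add_distrib]
    refine sum_congr rfl fun ρ _ => ?_
    ring
  rw [hdd]
  refine (norm_add_le _ _).trans ?_
  rw [norm_mul, Complex.norm_I, one_mul]
  refine (add_le_add hfin1 hfin2).trans (le_trans (le_of_eq ?_) (hx₀ x hxx))
  ring

end Pool.Agent.Results.MP_87c685_nt.PencilsOverK
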